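import Pool.Agent.R153.ST1

namespace Pool.Agent.Results.MP_cfa423_co.PeriodicPair

open Pool.Agent.R153.ST1

/-- For every `n` and every permutation `w` of `1, …, n` in one-line form, `w` is a periodic point
of `s_T`, `T = {231, 213}`, if and only if it is the identity or its reverse. -/
theorem result (n : ℕ) (w : List ℕ) (hw : w.Perm (List.range' 1 n)) :
    (∃ m : ℕ, 1 ≤ m ∧ (sT {[2, 3, 1], [2, 1, 3]})^[m] w = w) ↔
      (w = List.range' 1 n ∨ w = (List.range' 1 n).reverse) := by
  have hT : ({[2, 3, 1], [2, 1, 3]} : Set (List ℕ)) = T2 := rfl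
  rw [hT]
  have hlt : (List.range' 1 n).Pairwise (· < ·) := List.pairwise_lt_range'
  have hgt : (List.range' 1 n).reverse.Pairwise (· > ·) := List.pairwise_reverse.2 hlt
  have hnd : w.Nodup := hw.nodup_iff.2 List.nodup_range'
  constructor
  · rintro ⟨m, hm, h⟩
    rcases Per.mono ⟨hnd, m, hm, h⟩ with h1 | h1
    · left
      exact hw.eq_of_pairwise (fun a b _ _ h2 h3 => absurd (h2.trans h3) (lt_irrefl _)) h1 hlt
    · right
      exact (hw.trans (List.reverse_perm _).symm).eq_of_pairwise
        (fun a b _ _ h2 h3 => absurd (h2.trans h3) (lt_irrefl _)) h1 hgt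
  · rintro (rfl | rfl)
    · refine ⟨2, by norm_num, ?_⟩
      change sT T2 (sT T2 (List.range' 1 n)) = List.range' 1 n
      rw [sT_lt hlt, sT_gt hgt, List.reverse_reverse]
    · refine ⟨2, by norm_num, ?_⟩
      change sT T2 (sT T2 (List.range' 1 n).reverse) = (List.range' 1 n).reverse
      rw [sT_gt hgt, List.reverse_reverse, sT_lt hlt]

end Pool.Agent.Results.MP_cfa423_co.PeriodicPair
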